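import Mathlib

/-!
# First-Fit on chordal graphs (Irani's question)

For every `k ≥ 2` and every `n ≥ k ^ 2` there is a chordal graph on `n` vertices with clique number `k`
for which First-Fit, for a suitable ordering of the vertices, uses at least `c k log n` colours, with an
absolute constant `c > 0`.

The graph: replace every vertex of the binomial tree by a clique with `⌊k / 2⌋` vertices, add a disjoint
clique with `k` vertices and isolated vertices.
-/

set_option autoImplicit false

namespace Pool.Agent.Results.MP_4aa424_co.FirstFitChordal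

open Finset

/-- A graph is chordal when every cycle of length at least four has a chord: every copy `φ` of a cycle
`C_n`, `n ≥ 4`, in `G` has two non-consecutive vertices which are adjacent in `G`. -/
def IsChordal {V : Type} (G : SimpleGraph V) : Prop :=
  ∀ n : ℕ, 4 ≤ n → ∀ φ : Fin n → V, Function.Injective φ →
    (∀ i j, (SimpleGraph.cycleGraph n).Adj i j → G.Adj (φ i) (φ j)) →
    ∃ i j, i ≠ j ∧ ¬ (SimpleGraph.cycleGraph n).Adj i j ∧ G.Adj (φ i) (φ j)

/-- `col` is the colouring which First-Fit produces when the vertices are coloured in the order `σ`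
(`σ v` is the time at which `v` is coloured): `v` gets the least positive integer which is not already
used on a neighbour of `v` coloured before. -/
def IsFirstFit {V : Type} [Fintype V] (G : SimpleGraph V) (σ : V ≃ Fin (Fintype.card V))
    (col : V → ℕ) : Prop :=
  ∀ v, IsLeast {m : ℕ | 1 ≤ m ∧ ∀ u, G.Adj u v → σ u < σ v → col u ≠ m} (col v)

/-- The First-Fit chromatic number: the largest number of colours which First-Fit uses on `G`, over all
orderings of the vertices. -/
noncomputable def chiFF {V : Type} [Fintype V] (G : SimpleGraph V) : ℕ :=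
  sSup {t : ℕ | ∃ (σ : V ≃ Fin (Fintype.card V)) (col : V → ℕ), IsFirstFit G σ col ∧
    (univ.image col).card = t}

/-! ## General lemmas -/

lemma le_chiFF {V : Type} [Fintype V] (G : SimpleGraph V) (σ : V ≃ Fin (Fintype.card V))
    (col : V → ℕ) (h : IsFirstFit G σ col) : (univ.image col).card ≤ chiFF G := by
  apply le_csSup
  · refine ⟨Fintype.card V, ?_⟩
    rintro t ⟨σ', col', -, rfl⟩
    exact card_image_le
  · exact ⟨σ, col, h, rfl⟩

/-- A wall is a First-Fit colouring. -/
lemma chiFF_of_wall {V : Type} [Fintype V] (G : SimpleGraph V) (col : V → ℕ)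
    (hp : ∀ u v, G.Adj u v → col u ≠ col v) (h1 : ∀ v, 1 ≤ col v)
    (hw : ∀ v m, 1 ≤ m → m < col v → ∃ u, G.Adj u v ∧ col u = m) :
    (univ.image col).card ≤ chiFF G := by
  classical
  -- order the vertices by their colours
  let e := Fintype.equivFin V
  let g : V → ℕ ×ₗ Fin (Fintype.card V) := fun v => toLex (col v, e v)
  have hg : Function.Injective g := by
    intro u v huv
    have : e u = e v := congrArg (fun p => (ofLex p).2) huv
    exact e.injective this
  let _ : LinearOrder V := LinearOrder.lift' g hg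
  let τ : Fin (Fintype.card V) ≃o V := monoEquivOfFin V rfl
  have hlt : ∀ u v, col u < col v → τ.symm u < τ.symm v := by
    intro u v huv
    rw [τ.symm.lt_iff_lt]
    show g u < g v
    rw [Prod.Lex.lt_iff]
    left
    exact huv
  apply le_chiFF G τ.symm.toEquiv col
  intro v
  refine ⟨⟨h1 v, fun u hu _ => hp u v hu⟩, ?_⟩
  rintro m ⟨hm1, hm⟩
  by_contra hlt'
  push Not at hlt'
  obtain ⟨u, hu, hum⟩ := hw v m hm1 hlt'
  exact hm u hu (hlt u v (by omega)) hum

/-- A graph with a perfect elimination scheme is chordal. -/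
lemma chordal_of_rank {V : Type} (G : SimpleGraph V) (f : V → ℕ)
    (hf : ∀ u v, G.Adj u v → f u ≠ f v)
    (hc : ∀ u v w, G.Adj u v → G.Adj w v → f u < f v → f w < f v → u ≠ w → G.Adj u w) :
    IsChordal G := by
  intro n hn φ hφ hadj
  obtain ⟨m, rfl⟩ : ∃ m, n = m + 4 := ⟨n - 4, by omega⟩
  obtain ⟨i, -, hi⟩ := exists_max_image (univ : Finset (Fin (m + 4))) (fun i => f (φ i))
    ⟨0, mem_univ _⟩
  have e1 : (SimpleGraph.cycleGraph (m + 4)).Adj (i + 1) i := by
    rw [SimpleGraph.cycleGraph_adj]; left; simp
  have e2 : (SimpleGraph.cycleGraph (m + 4)).Adj (i - 1) i := by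
    rw [SimpleGraph.cycleGraph_adj]; right; simp
  have a1 := hadj _ _ e1
  have a2 := hadj _ _ e2
  have l1 : f (φ (i + 1)) < f (φ i) := lt_of_le_of_ne (hi _ (mem_univ _)) (hf _ _ a1)
  have l2 : f (φ (i - 1)) < f (φ i) := lt_of_le_of_ne (hi _ (mem_univ _)) (hf _ _ a2)
  have h2 : (2 : Fin (m + 4)) ≠ 0 := by
    intro h
    have := congrArg Fin.val h
    simp [Nat.mod_eq_of_lt (show 2 < m + 4 by omega)] at this
  have h21 : (2 : Fin (m + 4)) ≠ 1 := by
    intro h
    have := congrArg Fin.val h
    simp [Nat.mod_eq_of_lt (show 2 < m + 4 by omega)] at this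
  have h3 : (3 : Fin (m + 4)) ≠ 0 := by
    intro h
    have := congrArg Fin.val h
    simp [Nat.mod_eq_of_lt (show 3 < m + 4 by omega)] at this
  have e4 : (i + 1) - (i - 1) = (2 : Fin (m + 4)) := by
    have : (i + 1) - (i - 1) = 1 + 1 := by abel
    rw [this]; rfl
  have e5 : (3 : Fin (m + 4)) = 1 - ((i - 1) - (i + 1)) := by
    have : 1 - ((i - 1) - (i + 1)) = 1 + 1 + 1 := by abel
    rw [this]; rfl
  have hne : i + 1 ≠ i - 1 := by
    intro h
    apply h2
    have : (2 : Fin (m + 4)) = (i + 1) - (i - 1) := by rw [e4]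
    rw [this, h]; simp
  refine ⟨i + 1, i - 1, hne, ?_, hc _ _ _ a1 a2 l1 l2 (fun h => hne (hφ h))⟩
  rw [SimpleGraph.cycleGraph_adj]
  rintro (h | h)
  · apply h21
    rw [← e4, h]
  · apply h3
    rw [e5, h]; simp

/-! ## The binomial tree -/

/-- The level of a node of the binomial tree of height `h`; the nodes are the subsets of
`{0, …, h - 1}`, the level of `S` is the least element of `S`, and the level of `∅` is `h`. -/
def lev {h : ℕ} (S : Finset (Fin h)) : ℕ := S.fold min h (fun i : Fin h => (i : ℕ))

/-- `S` is a child of `T`. -/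
def Child {h : ℕ} (S T : Finset (Fin h)) : Prop := ∃ j : Fin h, (j : ℕ) < lev T ∧ S = insert j T

lemma lt_lev {h : ℕ} (S : Finset (Fin h)) (j : ℕ) : j < lev S ↔ j < h ∧ ∀ i ∈ S, j < (i : ℕ) := by
  unfold lev
  exact lt_fold_min (s := S) (f := fun i : Fin h => (i : ℕ)) (b := h) (c := j)

lemma notMem_of_lt_lev {h : ℕ} {T : Finset (Fin h)} {j : Fin h} (hj : (j : ℕ) < lev T) : j ∉ T := by
  intro hm
  exact lt_irrefl _ (((lt_lev T j).mp hj).2 j hm)

lemma lev_insert {h : ℕ} {T : Finset (Fin h)} {j : Fin h} (hj : (j : ℕ) < lev T) :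
    lev (insert j T) = j := by
  have h1 := notMem_of_lt_lev hj
  unfold lev at hj ⊢
  rw [fold_insert h1]
  exact min_eq_left hj.le

lemma lev_empty {h : ℕ} : lev (∅ : Finset (Fin h)) = h := rfl

lemma lev_le {h : ℕ} (S : Finset (Fin h)) : lev S ≤ h := by
  by_contra hc
  push Not at hc
  exact lt_irrefl _ ((lt_lev S h).mp hc).1

lemma Child.card {h : ℕ} {S T : Finset (Fin h)} (hc : Child S T) : S.card = T.card + 1 := by
  obtain ⟨j, hj, rfl⟩ := hc
  exact card_insert_of_notMem (notMem_of_lt_lev hj)

lemma Child.lev_lt {h : ℕ} {S T : Finset (Fin h)} (hc : Child S T) : lev S < lev T := by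
  obtain ⟨j, hj, rfl⟩ := hc
  rw [lev_insert hj]; exact hj

lemma Child.unique {h : ℕ} {S T T' : Finset (Fin h)} (hc : Child S T) (hc' : Child S T') :
    T = T' := by
  obtain ⟨j, hj, rfl⟩ := hc
  obtain ⟨j', hj', he⟩ := hc'
  have e1 := lev_insert hj
  have e2 := lev_insert hj'
  rw [← he, e1] at e2
  have hjj : j = j' := Fin.ext e2
  subst hjj
  rw [← erase_insert (notMem_of_lt_lev hj), he, erase_insert (notMem_of_lt_lev hj')]

lemma exists_child {h : ℕ} (T : Finset (Fin h)) (j : ℕ) (hj : j < lev T) :
    ∃ S, Child S T ∧ lev S = j := by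
  have hjh : j < h := ((lt_lev T j).mp hj).1
  refine ⟨insert ⟨j, hjh⟩ T, ⟨⟨j, hjh⟩, hj, rfl⟩, ?_⟩
  exact lev_insert (j := ⟨j, hjh⟩) hj

/-! ## The graph -/

/-- vertices: the pairs (node of the tree, index in the clique), the vertices of a disjoint clique, isolated
vertices -/
abbrev VV (h s k r : ℕ) : Type := (Finset (Fin h) × Fin s) ⊕ (Fin k ⊕ Fin r)

/-- adjacency of the graph -/
def adj (h s k r : ℕ) : VV h s k r → VV h s k r → Prop
  | Sum.inl (S, i), Sum.inl (T, j) => (S = T ∧ i ≠ j) ∨ Child S T ∨ Child T S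
  | Sum.inr (Sum.inl i), Sum.inr (Sum.inl j) => i ≠ j
  | _, _ => False

lemma adj_symm (h s k r : ℕ) (u v : VV h s k r) (huv : adj h s k r u v) : adj h s k r v u := by
  rcases u with ⟨S, i⟩ | i | i <;> rcases v with ⟨T, j⟩ | j | j <;> simp only [adj] at huv ⊢
  · rcases huv with ⟨h1, h2⟩ | h1 | h1
    · exact Or.inl ⟨h1.symm, h2.symm⟩
    · exact Or.inr (Or.inr h1)
    · exact Or.inr (Or.inl h1)
  · exact huv.symm

lemma adj_irrefl (h s k r : ℕ) (u : VV h s k r) : ¬ adj h s k r u u := by
  rcases u with ⟨S, i⟩ | i | i <;> simp only [adj]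
  · rintro (⟨-, h2⟩ | h1 | h1)
    · exact h2 rfl
    · exact absurd h1.card (by omega)
    · exact absurd h1.card (by omega)
  · exact fun h => h rfl
  · exact fun h => h

/-- The graph. -/
def GG (h s k r : ℕ) : SimpleGraph (VV h s k r) where
  Adj := adj h s k r
  symm := ⟨fun u v => adj_symm h s k r u v⟩
  loopless := ⟨fun u => adj_irrefl h s k r u⟩

/-- the rank of a vertex in the elimination scheme -/
def rk (h s k r : ℕ) : VV h s k r → ℕ
  | Sum.inl (S, i) => S.card * s + i
  | Sum.inr (Sum.inl i) => i
  | Sum.inr (Sum.inr _) => 0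

/-- the colour of a vertex -/
def cl (h s k r : ℕ) : VV h s k r → ℕ
  | Sum.inl (S, i) => lev S * s + i + 1
  | Sum.inr (Sum.inl i) => i + 1
  | Sum.inr (Sum.inr _) => 1

lemma block_lt {s a b i j : ℕ} (hi : i < s) (hab : a < b) : a * s + i < b * s + j := by
  have : (a + 1) * s ≤ b * s := Nat.mul_le_mul_right s hab
  rw [add_mul, one_mul] at this
  omega

lemma chordal_GG (h s k r : ℕ) : IsChordal (GG h s k r) := by
  apply chordal_of_rank _ (rk h s k r)
  · rintro (⟨S, i⟩ | i | i) (⟨T, j⟩ | j | j) huv <;> simp only [GG, adj] at huv <;> simp only [rk]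
    · have hi := i.isLt
      have hj := j.isLt
      rcases huv with ⟨rfl, h2⟩ | h1 | h1
      · intro he
        exact h2 (Fin.ext (by omega))
      · have := h1.card
        exact (block_lt (s := s) (j := (i : ℕ)) hj (show T.card < S.card by omega)).ne'
      · have := h1.card
        exact (block_lt (s := s) (j := (j : ℕ)) hi (show S.card < T.card by omega)).ne
    · intro he
      exact huv (Fin.ext he)
  · rintro (⟨S, i⟩ | i | i) (⟨T, j⟩ | j | j) (⟨U, l⟩ | l | l) huv hwv h1 h2 hne <;>
      simp only [GG, adj] at huv hwv <;> simp only [rk] at h1 h2 <;> simp only [GG, adj]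
    · have hi := i.isLt
      have hj := j.isLt
      have hl := l.isLt
      -- neighbours of smaller rank lie in the same clique or in the parent clique
      have key : ∀ (S : Finset (Fin h)) (i : Fin s), ((S = T ∧ i ≠ j) ∨ Child S T ∨ Child T S) →
          S.card * s + i < T.card * s + j → (S = T ∧ i ≠ j) ∨ Child T S := by
        rintro S i (h | h | h) hlt
        · exact Or.inl h
        · exfalso
          have := h.card
          exact absurd (block_lt (s := s) (j := (i : ℕ)) hj (show T.card < S.card by omega)) (by omega)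
        · exact Or.inr h
      rcases key S i huv h1 with ⟨rfl, h3⟩ | h3 <;> rcases key U l hwv h2 with ⟨rfl, h4⟩ | h4
      · left
        refine ⟨rfl, fun hil => hne ?_⟩
        rw [hil]
      · exact Or.inr (Or.inl h4)
      · exact Or.inr (Or.inr h3)
      · left
        refine ⟨h3.unique h4, fun hil => hne ?_⟩
        rw [hil, h3.unique h4]
    · intro he
      exact hne (by rw [he])

lemma clique_GG_le (h s k r : ℕ) (hk : 2 * s ≤ k) (hk0 : 1 ≤ k) (A : Finset (VV h s k r))
    (hA : (GG h s k r).IsClique (A : Set (VV h s k r))) : A.card ≤ k := by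
  classical
  rcases A.eq_empty_or_nonempty with rfl | ⟨a, ha⟩
  · simp
  rcases a with ⟨S, i⟩ | i | i
  · -- all vertices are in the blown up tree; nodes have only two different cardinalities
    have hform : ∀ v ∈ A, ∃ (T : Finset (Fin h)) (j : Fin s), v = Sum.inl (T, j) := by
      intro v hv
      by_cases hva : v = Sum.inl (S, i)
      · exact ⟨S, i, hva⟩
      · have := hA hv ha hva
        rcases v with ⟨T, j⟩ | j | j
        · exact ⟨T, j, rfl⟩
        · exact this.elim
        · exact this.elim
    -- map to `Bool × Fin s`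
    let φ : VV h s k r → Bool × Fin s := fun v => match v with
      | Sum.inl (T, j) => (decide (T = S), j)
      | _ => (false, i)
    have hinj : Set.InjOn φ (A : Set (VV h s k r)) := by
      intro u hu v hv huv
      obtain ⟨T, j, rfl⟩ := hform u hu
      obtain ⟨U, l, rfl⟩ := hform v hv
      simp only [φ, Prod.mk.injEq] at huv
      obtain ⟨h1, rfl⟩ := huv
      by_cases hTU : T = U
      · rw [hTU]
      exfalso
      have hTS : T ≠ S := by
        intro hT
        rw [hT, decide_eq_true rfl] at h1
        have := of_decide_eq_true h1.symm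
        exact hTU (hT.trans this.symm)
      have hUS : U ≠ S := by
        intro hU
        rw [hU, decide_eq_true rfl] at h1
        exact hTS (of_decide_eq_true h1)
      have a1 := hA hu ha (fun he => hTS (by simpa using congrArg Prod.fst (Sum.inl_injective he)))
      have a2 := hA hv ha (fun he => hUS (by simpa using congrArg Prod.fst (Sum.inl_injective he)))
      have a3 := hA hu hv (fun he => hTU (by simpa using congrArg Prod.fst (Sum.inl_injective he)))
      simp only [GG, adj] at a1 a2 a3
      have c1 : T.card = S.card + 1 ∨ S.card = T.card + 1 := by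
        rcases a1 with ⟨h, -⟩ | h | h
        · exact absurd h hTS
        · exact Or.inl h.card
        · exact Or.inr h.card
      have c2 : U.card = S.card + 1 ∨ S.card = U.card + 1 := by
        rcases a2 with ⟨h, -⟩ | h | h
        · exact absurd h hUS
        · exact Or.inl h.card
        · exact Or.inr h.card
      have c3 : T.card = U.card + 1 ∨ U.card = T.card + 1 := by
        rcases a3 with ⟨h, -⟩ | h | h
        · exact absurd h hTU
        · exact Or.inl h.card
        · exact Or.inr h.card
      omega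
    calc A.card ≤ (univ : Finset (Bool × Fin s)).card :=
          card_le_card_of_injOn φ (fun _ _ => mem_univ _) hinj
      _ = 2 * s := by simp
      _ ≤ k := hk
  · have hinj : Set.InjOn (fun v : VV h s k r => match v with
        | Sum.inr (Sum.inl j) => j
        | _ => i) (A : Set (VV h s k r)) := by
      have hform : ∀ v ∈ A, ∃ j : Fin k, v = Sum.inr (Sum.inl j) := by
        intro v hv
        by_cases hva : v = Sum.inr (Sum.inl i)
        · exact ⟨i, hva⟩
        · have := hA hv ha hva
          rcases v with ⟨T, j⟩ | j | j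
          · exact this.elim
          · exact ⟨j, rfl⟩
          · exact this.elim
      intro u hu v hv huv
      obtain ⟨j, rfl⟩ := hform u hu
      obtain ⟨l, rfl⟩ := hform v hv
      simp only at huv
      rw [huv]
    calc A.card ≤ (univ : Finset (Fin k)).card :=
          card_le_card_of_injOn _ (fun _ _ => mem_univ _) hinj
      _ = k := by simp
  · have : A ⊆ {Sum.inr (Sum.inr i)} := by
      intro v hv
      by_contra hva
      rw [mem_singleton] at hva
      have := hA hv ha hva
      rcases v with ⟨T, j⟩ | j | j <;> exact this.elim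
    exact (card_le_card this).trans (by simpa using hk0)

lemma cliqueNum_GG (h s k r : ℕ) (hk : 2 * s ≤ k) (hk0 : 1 ≤ k) :
    (GG h s k r).cliqueNum = k := by
  classical
  apply le_antisymm
  · apply csSup_le'
    rintro t ⟨A, hA⟩
    rw [← hA.card_eq]
    exact clique_GG_le h s k r hk hk0 A hA.isClique
  · have hcl : (GG h s k r).IsClique
        ((univ.image (fun i : Fin k => (Sum.inr (Sum.inl i) : VV h s k r)) :
          Finset (VV h s k r)) : Set (VV h s k r)) := by
      intro u hu v hv huv
      simp only [coe_image, coe_univ, Set.image_univ, Set.mem_range] at hu hv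
      obtain ⟨i, rfl⟩ := hu
      obtain ⟨j, rfl⟩ := hv
      simp only [GG, adj]
      intro hij
      exact huv (by rw [hij])
    have := hcl.card_le_cliqueNum
    rw [card_image_of_injective _ (fun i j hij => by
      exact Sum.inl_injective (Sum.inr_injective hij)), card_univ, Fintype.card_fin] at this
    exact this

lemma wall_GG (h s k r : ℕ) : ((h + 1) * s) ≤ chiFF (GG h s k r) := by
  classical
  refine le_trans ?_ (chiFF_of_wall (GG h s k r) (cl h s k r) ?_ ?_ ?_)
  · have hsub : Finset.Icc 1 ((h + 1) * s) ⊆ univ.image (cl h s k r) := by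
      intro t ht
      rw [Finset.mem_Icc] at ht
      have hs : 0 < s := by
        rcases Nat.eq_zero_or_pos s with h0 | h0
        · subst h0; omega
        · exact h0
      have h1 : (t - 1) / s < h + 1 := by
        rw [Nat.div_lt_iff_lt_mul hs]; omega
      have h2 : (t - 1) % s < s := Nat.mod_lt _ hs
      have h3 : (t - 1) / s * s + (t - 1) % s = t - 1 := by
        rw [mul_comm]; exact Nat.div_add_mod _ _
      obtain ⟨S, hS⟩ : ∃ S : Finset (Fin h), lev S = (t - 1) / s := by
        rcases Nat.lt_or_ge ((t - 1) / s) h with h4 | h4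
        · obtain ⟨S, -, hS⟩ := exists_child (∅ : Finset (Fin h)) ((t - 1) / s)
            (by rw [lev_empty]; exact h4)
          exact ⟨S, hS⟩
        · exact ⟨∅, by rw [lev_empty]; omega⟩
      rw [mem_image]
      refine ⟨Sum.inl (S, ⟨(t - 1) % s, h2⟩), mem_univ _, ?_⟩
      simp only [cl]
      rw [hS, h3]; omega
    calc (h + 1) * s = (Finset.Icc 1 ((h + 1) * s)).card := by simp
      _ ≤ _ := card_le_card hsub
  · rintro (⟨S, i⟩ | i | i) (⟨T, j⟩ | j | j) huv <;> simp only [GG, adj] at huv <;>
      simp only [cl]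
    · have hi := i.isLt
      have hj := j.isLt
      rcases huv with ⟨rfl, h2⟩ | h1 | h1
      · intro he
        exact h2 (Fin.ext (by omega))
      · have := block_lt (s := s) (j := (j : ℕ)) hi h1.lev_lt
        omega
      · have := block_lt (s := s) (j := (i : ℕ)) hj h1.lev_lt
        omega
    · intro he
      exact huv (Fin.ext (by omega))
  · rintro (⟨S, i⟩ | i | i) <;> simp only [cl] <;> omega
  · rintro (⟨T, j⟩ | j | j) m hm1 hm <;> simp only [cl] at hm
    · have hj := j.isLt
      have hs : 0 < s := by omega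
      have h2 : (m - 1) % s < s := Nat.mod_lt _ hs
      have h3 : (m - 1) / s * s + (m - 1) % s = m - 1 := by
        rw [mul_comm]; exact Nat.div_add_mod _ _
      have h1 : (m - 1) / s ≤ lev T := by
        rw [← Nat.lt_succ_iff, Nat.div_lt_iff_lt_mul hs]
        have : (lev T).succ * s = lev T * s + s := by rw [Nat.succ_mul]
        omega
      rcases Nat.lt_or_ge ((m - 1) / s) (lev T) with h4 | h4
      · obtain ⟨S, hS, hl⟩ := exists_child T ((m - 1) / s) h4
        refine ⟨Sum.inl (S, ⟨(m - 1) % s, h2⟩), ?_, ?_⟩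
        · simp only [GG, adj]
          exact Or.inr (Or.inl hS)
        · simp only [cl]
          rw [hl, h3]; omega
      · have h5 : (m - 1) / s = lev T := le_antisymm h1 h4
        rw [h5] at h3
        refine ⟨Sum.inl (T, ⟨(m - 1) % s, h2⟩), ?_, ?_⟩
        · simp only [GG, adj]
          left
          refine ⟨trivial, fun he => ?_⟩
          have := congrArg Fin.val he
          simp only at this
          omega
        · simp only [cl]
          rw [h3]; omega
    · have hj := j.isLt
      refine ⟨Sum.inr (Sum.inl ⟨m - 1, by omega⟩), ?_, ?_⟩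
      · simp only [GG, adj]
        intro he
        have := congrArg Fin.val he
        simp only at this
        omega
      · simp only [cl]
        omega
    · omega

lemma card_VV (h s k r : ℕ) : Fintype.card (VV h s k r) = 2 ^ h * s + (k + r) := by
  simp [VV]

/-- **Irani's question on First-Fit for chordal graphs.** There is an absolute constant `c > 0` such
that for all `k ≥ 2` and all `n ≥ k ^ 2` there is a chordal graph with exactly `n` vertices and clique
number exactly `k` whose First-Fit chromatic number is at least `c k log n`. -/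
theorem result : ∃ c : ℝ, 0 < c ∧ ∀ k n : ℕ, 2 ≤ k → k ^ 2 ≤ n →
    ∃ (V : Type) (_ : Fintype V) (G : SimpleGraph V), Fintype.card V = n ∧ IsChordal G ∧
      G.cliqueNum = k ∧ c * k * Real.log n ≤ chiFF G := by
  refine ⟨1 / 6, by norm_num, fun k n hk hn => ?_⟩
  set s := k / 2 with hs
  have hs1 : 1 ≤ s := by omega
  have h2s : 2 * s ≤ k := by omega
  have h3s : k ≤ 3 * s := by omega
  have h2k : 2 * k ≤ n := by nlinarith
  set h := Nat.log 2 ((n - k) / s) with hh
  have hpos : (n - k) / s ≠ 0 := by
    have : 0 < (n - k) / s := Nat.div_pos (by omega) (by omega)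
    omega
  have h1 : 2 ^ h ≤ (n - k) / s := Nat.pow_log_le_self 2 hpos
  have h2 : (n - k) / s < 2 ^ (h + 1) := Nat.lt_pow_succ_log_self (by norm_num) _
  have h1' : 2 ^ h * s ≤ n - k := (Nat.le_div_iff_mul_le (by omega)).mp h1
  have h2' : n - k < 2 ^ (h + 1) * s := (Nat.div_lt_iff_lt_mul (by omega)).mp h2
  set r := n - k - 2 ^ h * s with hr
  refine ⟨VV h s k r, inferInstance, GG h s k r, ?_, chordal_GG h s k r,
    cliqueNum_GG h s k r h2s (by omega), ?_⟩
  · rw [card_VV]; omega
  · have hw := wall_GG h s k r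
    have hw' : ((h : ℝ) + 1) * s ≤ (chiFF (GG h s k r) : ℝ) := by exact_mod_cast hw
    refine le_trans ?_ hw'
    -- `n < 2 ^ (2 (h + 1))`
    have hlt : n < 2 ^ (2 * (h + 1)) := by
      have e1 : n < 2 ^ (h + 1) * (2 * s) := by
        have : 2 ^ (h + 1) * (2 * s) = 2 * (2 ^ (h + 1) * s) := by ring
        omega
      have e2 : n < 2 ^ (h + 1) * k := lt_of_lt_of_le e1 (Nat.mul_le_mul_left _ h2s)
      have e3 : n * n < (2 ^ (h + 1) * k) * (2 ^ (h + 1) * k) := Nat.mul_self_lt_mul_self e2
      have e4 : (2 ^ (h + 1) * k) * (2 ^ (h + 1) * k) = 2 ^ (2 * (h + 1)) * k ^ 2 := by ring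
      have e5 : 2 ^ (2 * (h + 1)) * k ^ 2 ≤ 2 ^ (2 * (h + 1)) * n := Nat.mul_le_mul_left _ hn
      have e6 : n * n < 2 ^ (2 * (h + 1)) * n := by rw [e4] at e3; exact lt_of_lt_of_le e3 e5
      exact Nat.lt_of_mul_lt_mul_right e6
    have hn0 : (0 : ℝ) < n := by
      have : 0 < n := by omega
      exact_mod_cast this
    have hlog : Real.log n ≤ 2 * ((h : ℝ) + 1) := by
      have f1 : (n : ℝ) ≤ (2 : ℝ) ^ (2 * (h + 1)) := by exact_mod_cast hlt.le
      have f2 : Real.log n ≤ Real.log ((2 : ℝ) ^ (2 * (h + 1))) := Real.log_le_log hn0 f1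
      rw [Real.log_pow] at f2
      have f3 : Real.log 2 ≤ 1 := by
        have := Real.log_two_lt_d9
        linarith
      push_cast at f2
      have f4 : (0 : ℝ) ≤ 2 * ((h : ℝ) + 1) := by positivity
      nlinarith
    have hk3 : (k : ℝ) ≤ 3 * s := by exact_mod_cast h3s
    have hk0 : (0 : ℝ) ≤ k := Nat.cast_nonneg _
    have hh0 : (0 : ℝ) ≤ (h : ℝ) + 1 := by positivity
    calc 1 / 6 * (k : ℝ) * Real.log n ≤ 1 / 6 * k * (2 * ((h : ℝ) + 1)) := by gcongr
      _ ≤ 1 / 6 * (3 * s) * (2 * ((h : ℝ) + 1)) := by gcongr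
      _ = ((h : ℝ) + 1) * s := by ring

end Pool.Agent.Results.MP_4aa424_co.FirstFitChordal
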